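import Pool.Agent.Y790.LE.Def

/-!
# Moving the whole lag
-/

set_option autoImplicit false

namespace Pool.Agent.Y790.LE

open Pool.Agent.Y790.LG (Od Sm Cls rt cst hd Lg Kst prd sk ins Lags ClsStm)

variable [EE]

namespace Car

theorem tr {n : ℕ} {x y z : ℕ → ℤ} {c d : ℕ → ℕ} (h1 : Rc n x c y) (h2 : Rc n y d z) :
    Rc n x (fun i => c i + d i) z := by
  intro ℓ g h
  have h3 := h1 _ _ (h2 ℓ g h)
  have e1 : (fun m => (fun m => ℓ m + (d (2 * m) + d (2 * m + 1))) m +
      (c (2 * m) + c (2 * m + 1))) =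
      fun m => ℓ m + ((c (2 * m) + d (2 * m)) + (c (2 * m + 1) + d (2 * m + 1))) := by
    funext m
    show ℓ m + (d (2 * m) + d (2 * m + 1)) + (c (2 * m) + c (2 * m + 1)) = _
    omega
  have e2 : g + d (2 * n) + c (2 * n) = g + (c (2 * n) + d (2 * n)) := by omega
  rw [e1, e2] at h3
  exact h3

theorem rfl' (n : ℕ) (x : ℕ → ℤ) : Rc n x (fun _ => 0) x := by
  intro ℓ g h
  exact h

theorem cg {n : ℕ} {x y : ℕ → ℤ} {c d : ℕ → ℕ} (h1 : Rc n x c y) (h : ∀ i, c i = d i) :
    Rc n x d y := by
  have : c = d := funext h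
  rwa [this] at h1

theorem prd_ne {n κ : ℕ} (hn : 1 ≤ n) : prd n κ ≠ κ := by
  unfold prd
  split <;> omega

/-- the intermediate lags -/
def Q (n P κ i : ℕ) : ℕ → ℕ := fun j => if j = κ then P - 2 * i else if j = prd n κ then 2 * i else 0

theorem Q_zero (n P κ : ℕ) : Lg n (Q n P κ 0) = Kst n P κ := by
  unfold Kst
  congr 1
  funext j
  unfold Q
  split_ifs <;> rfl

theorem Q_end {n P κ : ℕ} (hn : 1 ≤ n) (hP : P % 2 = 0) :
    Lg n (Q n P κ (P / 2)) = Kst n P (prd n κ) := by
  unfold Kst
  congr 1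
  funext j
  unfold Q
  have h1 := prd_ne (κ := κ) hn
  by_cases h2 : j = κ
  · rw [if_pos h2, if_neg (by rw [h2]; exact h1.symm)]
    omega
  · rw [if_neg h2]
    by_cases h3 : j = prd n κ
    · rw [if_pos h3, if_pos h3]
      omega
    · rw [if_neg h3, if_neg h3]

theorem Q_step {n P κ i : ℕ} (hn : 1 ≤ n) :
    (fun j => if j = κ then Q n P κ i j - 2 else if j = prd n κ then Q n P κ i j + 2
      else Q n P κ i j) = Q n P κ (i + 1) := by
  funext j
  unfold Q
  have h1 := prd_ne (κ := κ) hn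
  by_cases h2 : j = κ
  · rw [if_pos h2, if_pos h2, if_pos h2]
    omega
  · rw [if_neg h2, if_neg h2, if_neg h2]
    by_cases h3 : j = prd n κ
    · rw [if_pos h3, if_pos h3, if_pos h3]
      omega
    · rw [if_neg h3, if_neg h3, if_neg h3]

theorem Q_even {n P κ i : ℕ} (hP : P % 2 = 0) (j : ℕ) : Q n P κ i j % 2 = 0 := by
  unfold Q
  split_ifs <;> omega

theorem Q_le {n P κ i : ℕ} (hi : i ≤ P / 2) (j : ℕ) : Q n P κ i j ≤ P := by
  unfold Q
  split_ifs <;> omega

theorem Q_ge {n P κ i : ℕ} (hi : i < P / 2) : 2 ≤ Q n P κ i κ := by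
  unfold Q
  rw [if_pos rfl]
  omega

end Car

/-- the whole lag is moved to the predecessor -/
theorem car0 (h : Mov0Stm) : Car0Stm := by
  intro n P κ hn hP hκ
  have key : ∀ i ≤ P / 2, Rc n (Kst n P κ) (fun _ => i * (6 * P + 19)) (Lg n (Car.Q n P κ i)) := by
    intro i
    induction i with
    | zero =>
      intro _
      rw [Car.Q_zero]
      exact Car.cg (Car.rfl' _ _) (fun _ => (Nat.zero_mul _).symm)
    | succ i ih =>
      intro hi
      have h1 := h n (Car.Q n P κ i) κ (P + 2) hn hκ (Car.Q_ge (by omega))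
        (fun j _ => Car.Q_even hP j) (fun j _ => by
          have := Car.Q_le (n := n) (P := P) (κ := κ) (i := i) (by omega) j
          omega)
      rw [Car.Q_step hn] at h1
      exact Car.cg (Car.tr (ih (by omega)) h1) (fun _ => by ring)
  have := key (P / 2) le_rfl
  rwa [Car.Q_end hn hP] at this

theorem car1 (h : Mov1Stm) : Car1Stm := by
  intro n P κ hn hP hκ1 hκ
  have key : ∀ i ≤ P / 2, Rc n (Kst n P κ) (fun j => i * (6 * P + 18) +
      if j = κ ∨ j + 1 = κ then 2 * i else 0) (Lg n (Car.Q n P κ i)) := by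
    intro i
    induction i with
    | zero =>
      intro _
      rw [Car.Q_zero]
      refine Car.cg (Car.rfl' _ _) (fun j => ?_)
      rw [Nat.zero_mul, Nat.mul_zero]
      split <;> rfl
    | succ i ih =>
      intro hi
      have h1 := h n (Car.Q n P κ i) κ (P + 2) hn hκ1 hκ (Car.Q_ge (by omega))
        (fun j _ => Car.Q_even hP j) (fun j _ => by
          have := Car.Q_le (n := n) (P := P) (κ := κ) (i := i) (by omega) j
          omega)
      rw [Car.Q_step hn] at h1
      refine Car.cg (Car.tr (ih (by omega)) h1) (fun j => ?_)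
      by_cases hj : j = κ ∨ j + 1 = κ
      · simp only [if_pos hj]
        ring
      · simp only [if_neg hj]
        ring
  refine Car.cg (c := fun j => P / 2 * (6 * P + 18) + if j = κ ∨ j + 1 = κ then 2 * (P / 2)
    else 0) ?_ (fun j => ?_)
  · have := key (P / 2) le_rfl
    rwa [Car.Q_end hn hP] at this
  · have : 2 * (P / 2) = P := by omega
    rw [this]

theorem any (h1 : WaitStm) (h2 : Car0Stm) : AnyStm := by
  intro n P hP
  have hwait : ∀ κ w : ℕ, 2 * P + 2 ≤ w → Rc n (Kst n P κ) (fun _ => w) (Kst n P κ) := by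
    intro κ w hw
    refine h1 n (fun i => if i = κ then P else 0) w ?_ ?_
    · intro j _
      show 2 * (if j = κ then P else 0) + 2 ≤ w
      split <;> omega
    · intro j _
      show (if j = κ then P else 0) % 2 = 0
      split <;> omega
  rcases Nat.eq_zero_or_pos n with hn | hn
  · refine ⟨2 * P + 2, fun N hN κ hκ κ' hκ' => ?_⟩
    have e : κ = κ' := by omega
    rw [e]
    exact hwait κ' N hN
  · set N1 := P / 2 * (6 * P + 19) with hN1
    have down : ∀ κ d : ℕ, κ ≤ 2 * n → d ≤ κ →
        Rc n (Kst n P κ) (fun _ => d * N1) (Kst n P (κ - d)) := by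
      intro κ d hκ
      induction d with
      | zero =>
        intro _
        exact Car.cg (Car.rfl' _ _) (fun _ => (Nat.zero_mul _).symm)
      | succ d ih =>
        intro hd
        have h3 := h2 n P (κ - d) hn hP (by omega)
        have e : prd n (κ - d) = κ - (d + 1) := by
          unfold prd
          rw [if_neg (by omega)]
          omega
        rw [e] at h3
        exact Car.cg (Car.tr (ih (by omega)) h3) (fun _ => by rw [← hN1]; ring)
    refine ⟨(4 * n + 2) * N1 + 2 * P + 2, fun N hN κ hκ κ' hκ' => ?_⟩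
    have s1 := down κ κ hκ le_rfl
    rw [Nat.sub_self] at s1
    have s2 := h2 n P 0 hn hP (Nat.zero_le _)
    have e : prd n 0 = 2 * n := by
      unfold prd
      rw [if_pos rfl]
    rw [e, ← hN1] at s2
    have s3 := down (2 * n) (2 * n - κ') le_rfl (by omega)
    rw [show 2 * n - (2 * n - κ') = κ' by omega] at s3
    have s4 := Car.tr (Car.tr s1 s2) s3
    have hle : κ * N1 + N1 + (2 * n - κ') * N1 ≤ (4 * n + 2) * N1 := by
      have : κ * N1 + N1 + (2 * n - κ') * N1 = (κ + 1 + (2 * n - κ')) * N1 := by ring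
      rw [this]
      exact Nat.mul_le_mul_right _ (by omega)
    have s5 := hwait κ' (N - (κ * N1 + N1 + (2 * n - κ') * N1)) (by omega)
    refine Car.cg (Car.tr s4 s5) (fun _ => ?_)
    show κ * N1 + N1 + (2 * n - κ') * N1 + (N - (κ * N1 + N1 + (2 * n - κ') * N1)) = N
    omega

end Pool.Agent.Y790.LE
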