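import Pool.Agent.Y790.LE.Def

/-!
Joining a pair of strands (statement `FoldStm`).
-/

set_option autoImplicit false

namespace Pool.Agent.Y790.LE

open Pool.Agent.Y790.LG (Od Sm Cls rt cst hd Lg Kst prd sk ins Lags ClsStm)

variable [EE]

theorem St.congr_fold {n : ℕ} {x x' : ℕ → ℤ} {ℓ ℓ' : ℕ → ℕ} {g g' : ℕ} (h : St n x ℓ g)
    (hx : ∀ j ≤ 2 * n, x' j = x j) (hl : ∀ m < n, ℓ' m = ℓ m) (hg : g' = g) : St n x' ℓ' g' := by
  subst hg
  obtain ⟨W, P, G, h1, h2, h3, h4, h5, h6, h7, h8, h9, h10⟩ := h
  refine ⟨W, P, G, ?_, ?_, h3, h4, h5, h6, ?_, ?_, ?_, by rw [hx _ le_rfl]; exact h10⟩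
  · rw [h1]
    congr 1
    refine Finset.sum_congr rfl fun m hm => ?_
    rw [hl m (Finset.mem_range.1 hm)]
  · intro m hm
    rw [hl m hm]
    exact h2 m hm
  · intro v a b c
    rcases h7 v a b c with h | ⟨m, hm, h⟩
    · left
      rw [hx _ le_rfl]
      exact h
    · right
      refine ⟨m, hm, ?_⟩
      rw [hx (2 * m) (by omega), hx (2 * m + 1) (by omega)]
      exact h
  · rw [hx _ le_rfl]
    exact h8
  · intro m hm
    rw [hx (2 * m) (by omega), hx (2 * m + 1) (by omega)]
    exact h9 m hm

theorem le_cst (w t s : ℕ) : w ≤ cst w t s := by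
  unfold cst
  split_ifs <;> omega

theorem fold (h1 : StepStm) (h2 : StepFStm) : FoldStm := by
  intro n k P P' w w' κ hk hP hP' hPP hw hw' hκ hrt ℓ g hSt
  have hPZ : (P' : ℤ) * (2 * n + 1) = P * (2 * n + 3) + (2 * n + 2) := by exact_mod_cast hPP
  -- the position of the special strand
  have hκ2 : (κ < 2 * k ∧ κ + n + 1 = 2 * k) ∨ (2 * k + 2 ≤ κ ∧ κ = n + 2 * k + 2) := by
    unfold rt at hrt
    split_ifs at hrt <;> omega
  set κ' : ℕ := if κ < 2 * k then κ else κ - 2 with hκ'
  set a2 : ℕ → ℕ := fun i => rt (2 * n + 1) (2 * k) i with ha2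
  set p2 : ℕ → ℕ := fun i => if rt (2 * n + 1) (2 * k) i = n then P' else 0 with hp2
  set pK : ℕ → ℕ := fun i => if i = κ then P else 0 with hpK
  have hsk : ∀ j ≤ 2 * n, rt (2 * (n + 1) + 1) (2 * k + 2) (sk k j) = rt (2 * n + 1) (2 * k) j := by
    intro j hj
    unfold rt sk
    split_ifs <;> omega
  have hskκ : ∀ j ≤ 2 * n, (sk k j = κ ↔ rt (2 * n + 1) (2 * k) j = n) := by
    intro j hj
    unfold rt sk
    split_ifs <;> omega
  have hjκ : ∀ j ≤ 2 * n, (rt (2 * n + 1) (2 * k) j = n ↔ j = κ') := by
    intro j hj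
    rw [hκ']
    unfold rt
    split_ifs <;> omega
  have hback : ∀ j ≤ 2 * n,
      rt (2 * n + 1) (2 * n + 1 - 2 * k) (rt (2 * n + 1) (2 * k) j) = j := by
    intro j hj
    unfold rt
    split_ifs <;> omega
  have hsurj : ∀ s ≤ 2 * n, ∃ j ≤ 2 * n, rt (2 * n + 1) (2 * k) j = s := by
    intro s hs
    by_cases h : s + 2 * k ≤ 2 * n
    · refine ⟨s + 2 * k, h, ?_⟩
      unfold rt
      split_ifs <;> omega
    · refine ⟨s + 2 * k - (2 * n + 1), by omega, ?_⟩
      unfold rt
      split_ifs <;> omega
  -- the crossing sums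
  have hsum : ∀ j ≤ 2 * n, hd (2 * (n + 1) + 1) (rt (2 * (n + 1) + 1) (2 * k + 2) (sk k j)) (pK (sk k j)) +
      ((a2 j : ℤ) + p2 j * (2 * n + 1)) =
      if rt (2 * n + 1) (2 * k) j = n then 2 * (2 * (n : ℤ) + 1) - (2 * n + 3)
      else 2 * (a2 j : ℤ) - (2 * n + 3) := by
    intro j hj
    rw [hsk j hj]
    simp only [hpK, hp2, ha2, hd, hskκ j hj]
    split_ifs with h
    · rw [h]
      push_cast
      linarith
    · push_cast
      ring
  have hX0 : hd (2 * (n + 1) + 1) (rt (2 * (n + 1) + 1) (2 * k + 2) (2 * k)) (pK (2 * k)) = -2 := by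
    have e1 : rt (2 * (n + 1) + 1) (2 * k + 2) (2 * k) = 2 * n + 1 := by
      unfold rt
      split_ifs <;> omega
    have e2 : pK (2 * k) = 0 := by
      simp only [hpK]
      rw [if_neg (by omega)]
    rw [e1, e2, hd]
    push_cast
    ring
  have hX1 : hd (2 * (n + 1) + 1) (rt (2 * (n + 1) + 1) (2 * k + 2) (2 * k + 1)) (pK (2 * k + 1)) = -1 := by
    have e1 : rt (2 * (n + 1) + 1) (2 * k + 2) (2 * k + 1) = 2 * n + 2 := by
      unfold rt
      split_ifs <;> omega
    have e2 : pK (2 * k + 1) = 0 := by
      simp only [hpK]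
      rw [if_neg (by omega)]
    rw [e1, e2, hd]
    push_cast
    ring
  -- the second step
  have hS2 := h2 n k (fun j => hd (2 * (n + 1) + 1) (rt (2 * (n + 1) + 1) (2 * k + 2) j) (pK j)) a2 p2 w'
    (2 * n + 1 - 2 * k) hk (by omega)
    (by
      intro j hj
      simp only [ha2]
      unfold rt
      split_ifs <;> omega)
    (by
      intro s hs
      exact hsurj s hs)
    (by
      intro j hj
      unfold Od
      have := hsum j hj
      rw [this]
      split_ifs <;> omega)
    (by
      unfold Od
      rw [hX0, hX1]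
      norm_num)
    (by
      intro i hi0 hi1
      rw [hX0, hX1]
      by_cases hin : i = n
      · left
        rw [hin]
        ring
      right
      by_cases hi2 : i = 2 * n + 1
      · obtain ⟨j, hj, hjn⟩ := hsurj n (by omega)
        refine ⟨j, hj, ?_⟩
        rw [hsum j hj, if_pos hjn, hi2]
      · obtain ⟨j, hj, hjn⟩ := hsurj i.toNat (by omega)
        refine ⟨j, hj, ?_⟩
        rw [hsum j hj, if_neg (by omega)]
        simp only [ha2]
        rw [hjn, Int.toNat_of_nonneg hi0])
    (by
      intro j hj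
      refine le_trans ?_ (le_cst _ _ _)
      simp only [hp2]
      split_ifs <;> omega)
    (by
      intro j hj _
      simp only [hp2]
      split_ifs <;> omega) ℓ g
    (hSt.congr_fold (by
      intro j hj
      simp only [Kst, Lg, ha2, hp2]
      rw [hback j hj]
      congr 1
      by_cases hc : rt (2 * n + 1) (2 * k) j = n
      · rw [if_pos hc, if_pos ((hjκ j hj).1 hc)]
      · rw [if_neg hc, if_neg (fun h => hc ((hjκ j hj).2 h))]) (fun _ _ => rfl) rfl)
  -- the first step
  have hS1 := h1 (n + 1) (Kst (n + 1) P κ) (fun j => j) pK w (2 * k + 2) (by omega)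
    (fun j hj => hj) (fun s hs => ⟨s, hs, rfl⟩)
    (by
      intro j hj
      unfold Od
      have : Kst (n + 1) P κ j + ((j : ℤ) + pK j * (2 * ((n + 1 : ℕ) : ℤ) + 1)) =
          2 * (j : ℤ) - (2 * n + 3) := by
        simp only [Kst, Lg, hd, hpK]
        push_cast
        ring
      rw [this]
      omega)
    (by
      intro i hi0 hi1
      refine ⟨i.toNat, by omega, ?_⟩
      simp only [Kst, Lg, hd, hpK]
      push_cast
      rw [Int.toNat_of_nonneg hi0]
      ring)
    (by
      intro j hj
      refine le_trans ?_ (le_cst _ _ _)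
      simp only [hpK]
      split_ifs <;> omega)
    (by
      intro j hj _
      simp only [hpK]
      split_ifs <;> omega)
  have hfin := hS1 _ _ hS2
  refine hfin.congr_fold (fun _ _ => rfl) ?_ ?_
  · intro m hm
    unfold ins
    beta_reduce
    by_cases h : m < k
    · rw [if_pos h, if_pos h]
      have e1 : cst w' (2 * n + 1 - 2 * k) (a2 (2 * m)) = w' := by
        simp only [ha2]
        unfold cst rt
        split_ifs <;> omega
      have e2 : cst w' (2 * n + 1 - 2 * k) (a2 (2 * m + 1)) = w' := by
        simp only [ha2]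
        unfold cst rt
        split_ifs <;> omega
      have e3 : cst w (2 * k + 2) (2 * m) = w + 1 := by
        unfold cst
        split_ifs <;> omega
      have e4 : cst w (2 * k + 2) (2 * m + 1) = w + 1 := by
        unfold cst
        split_ifs <;> omega
      rw [e1, e2, e3, e4]
      ring
    · rw [if_neg h, if_neg h]
      by_cases h' : m = k
      · rw [if_pos h', if_pos h']
        have e3 : cst w (2 * k + 2) (2 * m) = w + 1 := by
          unfold cst
          split_ifs <;> omega
        have e4 : cst w (2 * k + 2) (2 * m + 1) = w + 1 := by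
          unfold cst
          split_ifs <;> omega
        rw [e3, e4]
        ring
      · rw [if_neg h', if_neg h']
        have e1 : cst w' (2 * n + 1 - 2 * k) (a2 (2 * (m - 1))) = w' + 1 := by
          simp only [ha2]
          unfold cst rt
          split_ifs <;> omega
        have e2 : cst w' (2 * n + 1 - 2 * k) (a2 (2 * (m - 1) + 1)) = w' + 1 := by
          simp only [ha2]
          unfold cst rt
          split_ifs <;> omega
        have e3 : cst w (2 * k + 2) (2 * m) = w := by
          unfold cst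
          split_ifs <;> omega
        have e4 : cst w (2 * k + 2) (2 * m + 1) = w := by
          unfold cst
          split_ifs <;> omega
        rw [e1, e2, e3, e4]
        ring
  · have e1 : cst w' (2 * n + 1 - 2 * k) (a2 (2 * n)) = w' + 1 := by
      simp only [ha2]
      unfold cst rt
      split_ifs <;> omega
    have e3 : cst w (2 * k + 2) (2 * (n + 1)) = w := by
      unfold cst
      split_ifs <;> omega
    beta_reduce
    rw [e1, e3]
    ring

end Pool.Agent.Y790.LE
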