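import Pool.Agent.Y790.LE.Core

/-!
# LG-GLUEF: gluing with one pair joined directly
-/

set_option autoImplicit false

namespace Pool.Agent.Y790.LE

open Pool.Agent.Y790.LG (Od Sm Cls rt cst hd Lg Kst prd sk ins Lags ClsStm)

variable [EE]

lemma sum_ins (k : ℕ) (f : ℕ → ℕ) (n : ℕ) (hk : k ≤ n) :
    ∑ m ∈ Finset.range (n + 1), (ins k 0 f m : ℤ) = ∑ m ∈ Finset.range n, (f m : ℤ) := by
  induction n with
  | zero =>
    have : k = 0 := by omega
    subst this
    simp [ins]
  | succ n ih =>
    rw [Finset.sum_range_succ]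
    by_cases h : k ≤ n
    · rw [ih h, Finset.sum_range_succ]
      congr 1
      unfold ins
      rw [if_neg (by omega), if_neg (by omega)]
      rfl
    · have : k = n + 1 := by omega
      subst this
      have e : ins (n + 1) 0 f (n + 1) = 0 := by
        unfold ins
        rw [if_neg (by omega), if_pos rfl]
      rw [e, Nat.cast_zero, add_zero]
      refine Finset.sum_congr rfl fun m hm => ?_
      rw [Finset.mem_range] at hm
      unfold ins
      rw [if_pos hm]

theorem glueF : GlueFStm := by
  intro n k x y L c W₀ hk hW₀ hlen hlast hbd hch hod hcov hsum ℓ g hS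
  obtain ⟨W, P, G, hW, hP, hG, h1, h2, h3, h4, h5, h6, h7, h8⟩ :=
    core n (fun j => x (sk k j)) y L c W₀ hW₀ hlen hlast hbd hch hcov ℓ g hS
  have e0 : sk k (2 * n) = 2 * (n + 1) := by
    unfold sk
    rw [if_neg (by omega)]
    ring
  simp only [e0] at h4 h5 h6 h8
  -- the list of the pair number `m`
  set P'' : ℕ → List ℤ := fun m => if m < k then P m else if m = k then [] else P (m - 1) with hP''
  have q1 : ∀ m, m < k → P'' m = P m := fun m h => by
    rw [hP'']
    simp only
    rw [if_pos h]
  have q2 : P'' k = [] := by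
    rw [hP'']
    simp
  have q3 : ∀ m, k ≤ m → P'' (m + 1) = P m := fun m h => by
    rw [hP'']
    simp only
    rw [if_neg (by omega), if_neg (by omega)]
    rfl
  have s1 : ∀ m, m < k → sk k (2 * m) = 2 * m ∧ sk k (2 * m + 1) = 2 * m + 1 := fun m h => by
    unfold sk
    rw [if_pos (by omega), if_pos (by omega)]
    exact ⟨rfl, rfl⟩
  have s3 : ∀ m, k ≤ m → sk k (2 * m) = 2 * (m + 1) ∧ sk k (2 * m + 1) = 2 * (m + 1) + 1 :=
    fun m h => by
    unfold sk
    rw [if_neg (by omega), if_neg (by omega)]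
    constructor <;> ring
  -- transfer of the sums
  have tr : ∀ v : ℤ, (Sm (x (2 * (n + 1)) :: G) v ∨
      ∃ m < n, Sm (x (sk k (2 * m)) :: (P m ++ [x (sk k (2 * m + 1))])) v) →
      Sm (x (2 * (n + 1)) :: G) v ∨
        ∃ m < n + 1, Sm (x (2 * m) :: (P'' m ++ [x (2 * m + 1)])) v := by
    rintro v (h | ⟨m, hm, h⟩)
    · exact Or.inl h
    · right
      by_cases hmk : m < k
      · refine ⟨m, by omega, ?_⟩
        rw [q1 m hmk]
        rw [(s1 m hmk).1, (s1 m hmk).2] at h
        exact h
      · refine ⟨m + 1, by omega, ?_⟩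
        rw [q3 m (not_lt.1 hmk)]
        rw [(s3 m (not_lt.1 hmk)).1, (s3 m (not_lt.1 hmk)).2] at h
        exact h
  refine ⟨W, P'', G, ?_, ?_, hG, ?_, h2, ?_, ?_, h6, ?_, h8⟩
  · rw [sum_ins k _ n hk, hW]
  · intro m hm
    rcases lt_trichotomy m k with h | h | h
    · rw [q1 m h, hP m (by omega)]
      unfold ins
      rw [if_pos h]
    · subst h
      rw [q2]
      unfold ins
      rw [if_neg (lt_irrefl _), if_pos rfl]
      rfl
    · obtain ⟨m', rfl⟩ : ∃ m', m = m' + 1 := ⟨m - 1, by omega⟩
      rw [q3 m' (by omega), hP m' (by omega)]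
      unfold ins
      rw [if_neg (by omega), if_neg (by omega)]
      rfl
  · intro u ha hb
    rcases h1 u ha hb with h | ⟨m, hm, h⟩
    · exact Or.inl h
    · right
      by_cases hmk : m < k
      · exact ⟨m, by omega, by rwa [q1 m hmk]⟩
      · exact ⟨m + 1, by omega, by rwa [q3 m (not_lt.1 hmk)]⟩
  · intro m hm u hu
    rcases lt_trichotomy m k with h | h | h
    · rw [q1 m h] at hu
      exact h3 m (by omega) u hu
    · subst h
      rw [q2] at hu
      exact absurd hu (by simp)
    · obtain ⟨m', rfl⟩ : ∃ m', m = m' + 1 := ⟨m - 1, by omega⟩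
      rw [q3 m' (by omega)] at hu
      exact h3 m' (by omega) u hu
  · intro v hv ha hb
    by_cases hc : v < 2 * W₀ - (2 * n + 1)
    · rcases hsum v hv (by push_cast at ha; linarith) hc with h | ⟨j, hj, h⟩
      · right
        refine ⟨k, by omega, ?_⟩
        rw [q2]
        exact ⟨x (2 * k), x (2 * k + 1), by simp, h⟩
      · exact tr v (h5 j hj v h)
    · exact tr v (h4 v hv (not_lt.1 hc) hb)
  · intro m hm
    rcases lt_trichotomy m k with h | h | h
    · rw [q1 m h]
      have := h7 m (by omega)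
      rw [(s1 m h).1, (s1 m h).2] at this
      exact this
    · subst h
      rw [q2]
      simpa using hod
    · obtain ⟨m', rfl⟩ : ∃ m', m = m' + 1 := ⟨m - 1, by omega⟩
      rw [q3 m' (by omega)]
      have := h7 m' (by omega)
      rw [(s3 m' (by omega)).1, (s3 m' (by omega)).2] at this
      exact this

end Pool.Agent.Y790.LE
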