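import Pool.Agent.Y790.LE.Def

/-!
# Spiders with long legs: waiting and moving two units of lag
-/

set_option autoImplicit false

namespace Pool.Agent.Y790.LE

open Pool.Agent.Y790.LG (Od Sm Cls rt cst hd Lg Kst prd sk ins Lags ClsStm)

variable [EE]

/-- a completion depends only on the heads `x i`, `i ≤ 2 n` and the lengths `ℓ m`, `m < n` -/
theorem St.congr_mov {n : ℕ} {x x' : ℕ → ℤ} {ℓ ℓ' : ℕ → ℕ} {g g' : ℕ} (hx : ∀ i ≤ 2 * n, x i = x' i)
    (hl : ∀ m < n, ℓ m = ℓ' m) (hg : g = g') (h : St n x ℓ g) : St n x' ℓ' g' := by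
  subst hg
  obtain ⟨W, P, G, h1, h2, h3, h4, h5, h6, h7, h8, h9, h10⟩ := h
  have e0 : x' (2 * n) = x (2 * n) := (hx _ le_rfl).symm
  have e1 : ∀ m < n, x' (2 * m) = x (2 * m) := fun m hm => (hx _ (by omega)).symm
  have e2 : ∀ m < n, x' (2 * m + 1) = x (2 * m + 1) := fun m hm => (hx _ (by omega)).symm
  refine ⟨W, P, G, ?_, ?_, h3, h4, h5, h6, ?_, ?_, ?_, by rw [e0]; exact h10⟩
  · rw [h1]
    congr 1
    refine Finset.sum_congr rfl fun m hm => ?_
    rw [hl m (Finset.mem_range.1 hm)]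
  · intro m hm
    rw [h2 m hm, hl m hm]
  · intro v hv1 hv2 hv3
    rcases h7 v hv1 hv2 hv3 with h | ⟨m, hm, h⟩
    · exact Or.inl (by rw [e0]; exact h)
    · exact Or.inr ⟨m, hm, by rw [e1 m hm, e2 m hm]; exact h⟩
  · rw [e0]; exact h8
  · intro m hm
    rw [e1 m hm, e2 m hm]
    exact h9 m hm

/-- `Rc` depends only on the values at the indices `≤ 2 n` -/
theorem Rc.congr {n : ℕ} {x x' y y' : ℕ → ℤ} {c c' : ℕ → ℕ} (hx : ∀ i ≤ 2 * n, x i = x' i)
    (hc : ∀ i ≤ 2 * n, c i = c' i) (hy : ∀ i ≤ 2 * n, y i = y' i) (h : Rc n x c y) :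
    Rc n x' c' y' := by
  intro ℓ g hst
  have h1 := h ℓ g (St.congr_mov (fun i hi => (hy i hi).symm) (fun _ _ => rfl) rfl hst)
  refine St.congr_mov hx (fun m hm => ?_) ?_ h1
  · rw [hc (2 * m) (by omega), hc (2 * m + 1) (by omega)]
  · rw [hc (2 * n) le_rfl]

theorem Rc.trans {n : ℕ} {x y z : ℕ → ℤ} {c d : ℕ → ℕ} (h1 : Rc n x c y) (h2 : Rc n y d z) :
    Rc n x (fun i => c i + d i) z := by
  intro ℓ g hst
  have h3 := h1 _ _ (h2 ℓ g hst)
  refine St.congr_mov (fun _ _ => rfl) (fun m _ => ?_) ?_ h3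
  · show ℓ m + (d (2 * m) + d (2 * m + 1)) + (c (2 * m) + c (2 * m + 1)) =
      ℓ m + (c (2 * m) + d (2 * m) + (c (2 * m + 1) + d (2 * m + 1)))
    omega
  · show g + d (2 * n) + c (2 * n) = g + (c (2 * n) + d (2 * n))
    omega

/-- the sum has the right form, so the parities are different -/
theorem od_of {n : ℕ} {a b k : ℤ} (h : a + b = 2 * k - (2 * n + 1)) : Od a b := by
  unfold Od; omega

/-- waiting -/
theorem wait (h : StepStm) : WaitStm := by
  intro n p w hw hp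
  have key : ∀ j : ℕ, Lg n p j + ((j : ℕ) + p j * (2 * n + 1)) = 2 * (j : ℤ) - (2 * n + 1) := by
    intro j
    unfold Lg hd
    push_cast
    ring
  have h1 := h n (Lg n p) (fun j => j) p w 0 (by omega) (fun j hj => hj) (fun s hs => ⟨s, hs, rfl⟩)
    (fun j _ => od_of (key j))
    (fun k hk0 hk1 => ⟨k.toNat, by omega, by
      have := key k.toNat
      rw [Int.toNat_of_nonneg hk0] at this
      have e : ((k.toNat : ℕ) : ℤ) = k := Int.toNat_of_nonneg hk0
      show Lg n p k.toNat + ((k.toNat : ℕ) + p k.toNat * (2 * n + 1)) = _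
      rw [e]
      exact this⟩)
    (fun j hj => by unfold cst; rw [if_neg (by omega)]; exact hw j hj)
    (fun j hj _ => hp j hj)
  refine Rc.congr (fun _ _ => rfl) (fun i _ => ?_) (fun i _ => ?_) h1
  · unfold cst; rw [if_neg (by omega)]
  · unfold Lg rt
    rw [if_neg (by omega)]
    rfl

/-! ### the two crossings -/

/-- the class after the crossing -/
def ad (q s : ℕ) : ℕ := if s + 2 < q then s + 2 else s + 2 - q

theorem rt_lt {q t s : ℕ} (ht : t ≤ q) (hs : s < q) : rt q t s < q := by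
  unfold rt; split_ifs <;> omega

theorem rt_rt {q t s : ℕ} (ht : t ≤ q) (hs : s < q) : rt q (q - t) (rt q t s) = s := by
  unfold rt; split_ifs <;> omega

theorem rt_rt' {q t s : ℕ} (ht : t ≤ q) (hs : s < q) : rt q t (rt q (q - t) s) = s := by
  unfold rt; split_ifs <;> omega

/-- the lags after the first crossing -/
def p1 (n κ : ℕ) (p : ℕ → ℕ) : ℕ → ℕ :=
  fun i => if i = κ then p i - 1 else if i = prd n κ then p i + 1 else p i

/-- the lags after the second crossing -/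
def p2 (n κ : ℕ) (p : ℕ → ℕ) : ℕ → ℕ :=
  fun i => if i = κ then p i - 2 else if i = prd n κ then p i + 2 else p i

/-- the sums at a crossing: the strand in the slot `s` goes to the class `s + 2` (or back) -/
theorem cross {n κ j P Q : ℕ} (hn : 1 ≤ n) (hκ : κ ≤ 2 * n) (hj : j ≤ 2 * n)
    (h1 : j = κ → P = Q + 1) (h2 : j ≠ κ → j = prd n κ → Q = P + 1)
    (h3 : j ≠ κ → j ≠ prd n κ → Q = P) :
    (((rt (2 * n + 1) (κ + 1) j + 1) % (2 * n + 1) : ℕ) : ℤ) * 2 - (2 * n + 1) =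
      (rt (2 * n + 1) (κ + 1) j : ℤ) + ad (2 * n + 1) (rt (2 * n + 1) (κ + 1) j) - (2 * n + 1) -
        P * (2 * n + 1) + Q * (2 * n + 1) := by
  obtain ⟨q, hq⟩ : ∃ q, q = 2 * n + 1 := ⟨_, rfl⟩
  obtain ⟨s, hs⟩ : ∃ s, s = rt (2 * n + 1) (κ + 1) j := ⟨_, rfl⟩
  have hsq : s < 2 * n + 1 := by rw [hs]; exact rt_lt (by omega) (by omega)
  rw [← hs]
  by_cases hjκ : j = κ
  · have hs1 : s = 2 * n := by
      rw [hs]; unfold rt; split_ifs <;> omega
    have hP := h1 hjκ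
    subst hP
    have e1 : (s + 1) % (2 * n + 1) = 0 := by
      rw [hs1]; exact Nat.mod_self _
    have e2 : ad (2 * n + 1) s = 1 := by
      unfold ad; split_ifs <;> omega
    rw [e1, e2, hs1]
    push_cast
    ring
  · by_cases hjp : j = prd n κ
    · have hQ := h2 hjκ hjp
      subst hQ
      have hs1 : s + 1 = 2 * n := by
        rw [hs]
        unfold prd at hjp
        unfold rt
        split_ifs at hjp ⊢ <;> omega
      have e1 : (s + 1) % (2 * n + 1) = s + 1 := Nat.mod_eq_of_lt (by omega)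
      have e2 : ad (2 * n + 1) s = 0 := by
        unfold ad; split_ifs <;> omega
      have e3 : (s : ℤ) = 2 * n - 1 := by omega
      rw [e1, e2]
      push_cast
      rw [e3]
      ring
    · have hQ := h3 hjκ hjp
      subst hQ
      have hs1 : s + 2 < 2 * n + 1 := by
        rw [hs]
        unfold prd at hjp
        unfold rt
        split_ifs at hjp ⊢ <;> omega
      have e1 : (s + 1) % (2 * n + 1) = s + 1 := Nat.mod_eq_of_lt (by omega)
      have e2 : ad (2 * n + 1) s = s + 2 := by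
        unfold ad; rw [if_pos hs1]
      rw [e1, e2]
      push_cast
      ring

/-- every value occurs -/
theorem cross_surj {n κ : ℕ} (hκ : κ ≤ 2 * n) (k : ℤ) (hk0 : 0 ≤ k) (hk : k ≤ 2 * n) :
    ∃ j ≤ 2 * n, (((rt (2 * n + 1) (κ + 1) j + 1) % (2 * n + 1) : ℕ) : ℤ) = k := by
  obtain ⟨m, rfl⟩ := Int.eq_ofNat_of_zero_le hk0
  have hm : m ≤ 2 * n := by exact_mod_cast hk
  obtain ⟨s, hs1, hs2⟩ : ∃ s, s < 2 * n + 1 ∧ (s + 1) % (2 * n + 1) = m := by
    rcases Nat.eq_zero_or_pos m with h | h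
    · exact ⟨2 * n, by omega, by rw [h]; exact Nat.mod_self _⟩
    · exact ⟨m - 1, by omega, by
        have : m - 1 + 1 = m := by omega
        rw [this]; exact Nat.mod_eq_of_lt (by omega)⟩
  have h3 := rt_rt' (q := 2 * n + 1) (t := κ + 1) (by omega) hs1
  have h4 := rt_lt (q := 2 * n + 1) (t := 2 * n + 1 - (κ + 1)) (by omega) hs1
  refine ⟨rt (2 * n + 1) (2 * n + 1 - (κ + 1)) s, by omega, ?_⟩
  rw [h3, hs2]

theorem ad_le {n s : ℕ} (hn : 1 ≤ n) (hs : s < 2 * n + 1) : ad (2 * n + 1) s ≤ 2 * n := by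
  unfold ad; split_ifs <;> omega

theorem ad_surj {n κ s : ℕ} (hn : 1 ≤ n) (hκ : κ ≤ 2 * n) (hs : s ≤ 2 * n) :
    ∃ j ≤ 2 * n, ad (2 * n + 1) (rt (2 * n + 1) (κ + 1) j) = s := by
  obtain ⟨r, hr1, hr2⟩ : ∃ r, r < 2 * n + 1 ∧ ad (2 * n + 1) r = s := by
    rcases lt_or_ge s 2 with h | h
    · exact ⟨s + 2 * n + 1 - 2, by omega, by unfold ad; split_ifs <;> omega⟩
    · exact ⟨s - 2, by omega, by unfold ad; split_ifs <;> omega⟩
  have h3 := rt_rt' (q := 2 * n + 1) (t := κ + 1) (by omega) hr1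
  have h4 := rt_lt (q := 2 * n + 1) (t := 2 * n + 1 - (κ + 1)) (by omega) hr1
  refine ⟨rt (2 * n + 1) (2 * n + 1 - (κ + 1)) r, by omega, ?_⟩
  rw [h3, hr2]

theorem rt_surj {n κ s : ℕ} (hκ : κ ≤ 2 * n) (hs : s ≤ 2 * n) :
    ∃ j ≤ 2 * n, rt (2 * n + 1) (κ + 1) j = s := by
  have h3 := rt_rt' (q := 2 * n + 1) (t := κ + 1) (s := s) (by omega) (by omega)
  have h4 := rt_lt (q := 2 * n + 1) (t := 2 * n + 1 - (κ + 1)) (s := s) (by omega) (by omega)
  exact ⟨rt (2 * n + 1) (2 * n + 1 - (κ + 1)) s, by omega, h3⟩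

theorem prd_ne_mov {n κ : ℕ} (hn : 1 ≤ n) : prd n κ ≠ κ := by
  unfold prd; split_ifs <;> omega

/-- the first step -/
theorem stepA (h : StepStm) (n : ℕ) (p : ℕ → ℕ) (κ B : ℕ) (hκ : κ ≤ 2 * n)
    (hp : ∀ j ≤ 2 * n, p j % 2 = 0) (hB : ∀ j ≤ 2 * n, p j + 2 ≤ B) :
    Rc n (Lg n p) (fun j => cst (2 * B + 2) (κ + 1) j)
      (fun j => hd (2 * n + 1) (rt (2 * n + 1) (κ + 1) j) (p j)) := by
  have key : ∀ j : ℕ, Lg n p j + ((j : ℕ) + p j * (2 * n + 1)) = 2 * (j : ℤ) - (2 * n + 1) := by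
    intro j
    unfold Lg hd
    push_cast
    ring
  exact h n (Lg n p) (fun j => j) p (2 * B + 2) (κ + 1) (by omega) (fun j hj => hj)
    (fun s hs => ⟨s, hs, rfl⟩)
    (fun j _ => od_of (key j))
    (fun k hk0 hk1 => ⟨k.toNat, by omega, by
      have := key k.toNat
      rw [Int.toNat_of_nonneg hk0] at this
      have e : ((k.toNat : ℕ) : ℤ) = k := Int.toNat_of_nonneg hk0
      show Lg n p k.toNat + ((k.toNat : ℕ) + p k.toNat * (2 * n + 1)) = _
      rw [e]
      exact this⟩)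
    (fun j hj => by
      have := hB j hj
      unfold cst
      split_ifs <;> omega)
    (fun j hj _ => hp j hj)

theorem p1_cases {n κ : ℕ} {p : ℕ → ℕ} (hk : 2 ≤ p κ) (j : ℕ) :
    (j = κ → p j = p1 n κ p j + 1) ∧ (j ≠ κ → j = prd n κ → p1 n κ p j = p j + 1) ∧
      (j ≠ κ → j ≠ prd n κ → p1 n κ p j = p j) := by
  refine ⟨fun h => ?_, fun h h' => ?_, fun h h' => ?_⟩
  · subst h
    unfold p1
    rw [if_pos rfl]; omega
  · unfold p1
    rw [if_neg h, if_pos h']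
  · unfold p1
    rw [if_neg h, if_neg h']

theorem p2_cases {n κ : ℕ} {p : ℕ → ℕ} (hk : 2 ≤ p κ) (j : ℕ) :
    (j = κ → p1 n κ p j = p2 n κ p j + 1) ∧ (j ≠ κ → j = prd n κ → p2 n κ p j = p1 n κ p j + 1) ∧
      (j ≠ κ → j ≠ prd n κ → p2 n κ p j = p1 n κ p j) := by
  refine ⟨fun h => ?_, fun h h' => ?_, fun h h' => ?_⟩
  · subst h
    unfold p1 p2
    rw [if_pos rfl, if_pos rfl]; omega
  · unfold p1 p2
    rw [if_neg h, if_pos h', if_neg h, if_pos h']
  · unfold p1 p2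
    rw [if_neg h, if_neg h', if_neg h, if_neg h']

/-- the sums at a crossing from the slots `s j` to the classes `ad (s j)` -/
theorem crossB {n κ : ℕ} (hn : 1 ≤ n) (hκ : κ ≤ 2 * n) {P Q : ℕ → ℕ}
    (hPQ : ∀ j, (j = κ → P j = Q j + 1) ∧ (j ≠ κ → j = prd n κ → Q j = P j + 1) ∧
      (j ≠ κ → j ≠ prd n κ → Q j = P j)) (j : ℕ) (hj : j ≤ 2 * n) :
    hd (2 * n + 1) (rt (2 * n + 1) (κ + 1) j) (P j) +
        ((ad (2 * n + 1) (rt (2 * n + 1) (κ + 1) j) : ℕ) + Q j * (2 * n + 1)) =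
      2 * (((rt (2 * n + 1) (κ + 1) j + 1) % (2 * n + 1) : ℕ) : ℤ) - (2 * n + 1) := by
  obtain ⟨h1, h2, h3⟩ := hPQ j
  have h := cross hn hκ hj h1 h2 h3
  unfold hd
  push_cast at h ⊢
  linarith

/-- the same with slots and classes exchanged -/
theorem crossC {n κ : ℕ} (hn : 1 ≤ n) (hκ : κ ≤ 2 * n) {P Q : ℕ → ℕ}
    (hPQ : ∀ j, (j = κ → P j = Q j + 1) ∧ (j ≠ κ → j = prd n κ → Q j = P j + 1) ∧
      (j ≠ κ → j ≠ prd n κ → Q j = P j)) (j : ℕ) (hj : j ≤ 2 * n) :
    hd (2 * n + 1) (ad (2 * n + 1) (rt (2 * n + 1) (κ + 1) j)) (P j) +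
        ((rt (2 * n + 1) (κ + 1) j : ℕ) + Q j * (2 * n + 1)) =
      2 * (((rt (2 * n + 1) (κ + 1) j + 1) % (2 * n + 1) : ℕ) : ℤ) - (2 * n + 1) := by
  obtain ⟨h1, h2, h3⟩ := hPQ j
  have h := cross hn hκ hj h1 h2 h3
  unfold hd
  push_cast at h ⊢
  linarith

theorem p1_le {n κ B : ℕ} {p : ℕ → ℕ} {j : ℕ} (hB : p j + 2 ≤ B) : p1 n κ p j + 1 ≤ B := by
  unfold p1; split_ifs <;> omega

theorem p2_le {n κ B : ℕ} {p : ℕ → ℕ} {j : ℕ} (hB : p j + 2 ≤ B) : p2 n κ p j ≤ B := by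
  unfold p2; split_ifs <;> omega

theorem p2_even {n κ : ℕ} {p : ℕ → ℕ} {j : ℕ} (hp : p j % 2 = 0) : p2 n κ p j % 2 = 0 := by
  unfold p2; split_ifs <;> omega

theorem rt_zero (q s : ℕ) : rt q 0 s = s := by
  unfold rt; rw [if_neg (by omega)]; rfl

/-- two units of lag are moved to the predecessor -/
theorem mov0 (h : StepStm) : Mov0Stm := by
  intro n p κ B hn hκ hk2 hp hB
  have hA := stepA h n p κ B hκ hp hB
  have hBs := h n (fun j => hd (2 * n + 1) (rt (2 * n + 1) (κ + 1) j) (p j))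
    (fun j => ad (2 * n + 1) (rt (2 * n + 1) (κ + 1) j)) (p1 n κ p) (2 * B + 2) 0 (by omega)
    (fun j hj => ad_le hn (rt_lt (by omega) (by omega)))
    (fun s hs => ad_surj hn hκ hs)
    (fun j hj => od_of (crossB hn hκ (p1_cases hk2) j hj))
    (fun k hk0 hk1 => by
      obtain ⟨j, hj, hj'⟩ := cross_surj hκ k hk0 hk1
      exact ⟨j, hj, by rw [← hj']; exact crossB hn hκ (p1_cases hk2) j hj⟩)
    (fun j hj => by
      have := p1_le (n := n) (κ := κ) (hB j hj)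
      unfold cst; split_ifs <;> omega)
    (fun j hj hodd => by
      exfalso
      unfold cst at hodd
      rw [if_neg (by omega)] at hodd
      omega)
  have hCs := h n (fun j => hd (2 * n + 1) (rt (2 * n + 1) 0 (ad (2 * n + 1) (rt (2 * n + 1) (κ + 1) j)))
      (p1 n κ p j))
    (fun j => rt (2 * n + 1) (κ + 1) j) (p2 n κ p) (2 * B + 2) (2 * n + 1 - (κ + 1)) (by omega)
    (fun j hj => by
      have := rt_lt (q := 2 * n + 1) (t := κ + 1) (s := j) (by omega) (by omega)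
      omega)
    (fun s hs => rt_surj hκ hs)
    (fun j hj => by
      refine od_of (n := n) (k := (((rt (2 * n + 1) (κ + 1) j + 1) % (2 * n + 1) : ℕ) : ℤ)) ?_
      rw [rt_zero]
      exact crossC hn hκ (p2_cases hk2) j hj)
    (fun k hk0 hk1 => by
      obtain ⟨j, hj, hj'⟩ := cross_surj hκ k hk0 hk1
      exact ⟨j, hj, by rw [← hj', rt_zero]; exact crossC hn hκ (p2_cases hk2) j hj⟩)
    (fun j hj => by
      have := p2_le (n := n) (κ := κ) (hB j hj)
      unfold cst; split_ifs <;> omega)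
    (fun j hj _ => p2_even (hp j hj))
  refine Rc.congr (fun _ _ => rfl) (fun i hi => ?_) (fun i hi => ?_) ((hA.trans hBs).trans hCs)
  · show cst (2 * B + 2) (κ + 1) i + cst (2 * B + 2) 0 (ad (2 * n + 1) (rt (2 * n + 1) (κ + 1) i)) +
      cst (2 * B + 2) (2 * n + 1 - (κ + 1)) (rt (2 * n + 1) (κ + 1) i) = 6 * B + 7
    unfold cst rt
    split_ifs <;> omega
  · show hd (2 * n + 1) (rt (2 * n + 1) (2 * n + 1 - (κ + 1)) (rt (2 * n + 1) (κ + 1) i)) (p2 n κ p i) = _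
    rw [rt_rt (by omega) (by omega)]
    rfl

theorem rt_two {n s : ℕ} (hn : 1 ≤ n) (hs : s < 2 * n + 1) : rt (2 * n + 1) 2 (ad (2 * n + 1) s) = s := by
  unfold rt ad; split_ifs <;> omega

theorem rt_last {n κ j : ℕ} (hn : 1 ≤ n) (h1 : 1 ≤ κ) (hκ : κ ≤ 2 * n) (hj : j ≤ 2 * n) :
    rt (2 * n + 1) (2 * n + 1 + 2 - (κ + 1)) (ad (2 * n + 1) (rt (2 * n + 1) (κ + 1) j)) = j := by
  unfold rt ad; split_ifs <;> omega

/-- the same, the two strands using two more vertices -/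
theorem mov1 (h : StepStm) : Mov1Stm := by
  intro n p κ B hn hκ1 hκ hk2 hp hB
  have hA := stepA h n p κ B hκ hp hB
  have hprd : prd n κ = κ - 1 := by unfold prd; rw [if_neg (by omega)]
  have hBs := h n (fun j => hd (2 * n + 1) (rt (2 * n + 1) (κ + 1) j) (p j))
    (fun j => ad (2 * n + 1) (rt (2 * n + 1) (κ + 1) j)) (p1 n κ p) (2 * B + 1) 2 (by omega)
    (fun j hj => ad_le hn (rt_lt (by omega) (by omega)))
    (fun s hs => ad_surj hn hκ hs)
    (fun j hj => od_of (crossB hn hκ (p1_cases hk2) j hj))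
    (fun k hk0 hk1 => by
      obtain ⟨j, hj, hj'⟩ := cross_surj hκ k hk0 hk1
      exact ⟨j, hj, by rw [← hj']; exact crossB hn hκ (p1_cases hk2) j hj⟩)
    (fun j hj => by
      have h1 := hB j hj
      show 2 * p1 n κ p j + 2 ≤ cst (2 * B + 1) 2 (ad (2 * n + 1) (rt (2 * n + 1) (κ + 1) j))
      by_cases hjk : j = κ
      · have : p1 n κ p j ≤ p j := by unfold p1; rw [if_pos hjk]; omega
        unfold cst; split_ifs <;> omega
      · by_cases hjp : j = prd n κ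
        · have h2 : p1 n κ p j = p j + 1 := (p1_cases hk2 j).2.1 hjk hjp
          have h3 : ad (2 * n + 1) (rt (2 * n + 1) (κ + 1) j) < 2 := by
            rw [hprd] at hjp
            unfold ad rt; split_ifs <;> omega
          unfold cst
          rw [if_pos h3]
          omega
        · have h2 : p1 n κ p j = p j := (p1_cases hk2 j).2.2 hjk hjp
          unfold cst; split_ifs <;> omega)
    (fun j hj hodd => by
      by_cases hjk : j = κ ∨ j = prd n κ
      · exfalso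
        have h3 : ad (2 * n + 1) (rt (2 * n + 1) (κ + 1) j) < 2 := by
          rw [hprd] at hjk
          unfold ad rt; split_ifs <;> omega
        change cst (2 * B + 1) 2 (ad (2 * n + 1) (rt (2 * n + 1) (κ + 1) j)) % 2 = 1 at hodd
        unfold cst at hodd
        rw [if_pos h3] at hodd
        omega
      · push Not at hjk
        show p1 n κ p j % 2 = 0
        rw [(p1_cases hk2 j).2.2 hjk.1 hjk.2]
        exact hp j hj)
  have hCs := h n (fun j => hd (2 * n + 1) (rt (2 * n + 1) 2 (ad (2 * n + 1) (rt (2 * n + 1) (κ + 1) j)))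
      (p1 n κ p j))
    (fun j => ad (2 * n + 1) (rt (2 * n + 1) (κ + 1) j)) (p2 n κ p) (2 * B + 2)
    (2 * n + 1 + 2 - (κ + 1)) (by omega)
    (fun j hj => ad_le hn (rt_lt (by omega) (by omega)))
    (fun s hs => ad_surj hn hκ hs)
    (fun j hj => by
      refine od_of (n := n) (k := (((rt (2 * n + 1) (κ + 1) j + 1) % (2 * n + 1) : ℕ) : ℤ)) ?_
      rw [rt_two hn (rt_lt (by omega) (by omega))]
      exact crossB hn hκ (p2_cases hk2) j hj)
    (fun k hk0 hk1 => by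
      obtain ⟨j, hj, hj'⟩ := cross_surj hκ k hk0 hk1
      exact ⟨j, hj, by
        rw [← hj', rt_two hn (rt_lt (by omega) (by omega))]
        exact crossB hn hκ (p2_cases hk2) j hj⟩)
    (fun j hj => by
      have := p2_le (n := n) (κ := κ) (hB j hj)
      unfold cst; split_ifs <;> omega)
    (fun j hj _ => p2_even (hp j hj))
  refine Rc.congr (fun _ _ => rfl) (fun i hi => ?_) (fun i hi => ?_) ((hA.trans hBs).trans hCs)
  · show cst (2 * B + 2) (κ + 1) i + cst (2 * B + 1) 2 (ad (2 * n + 1) (rt (2 * n + 1) (κ + 1) i)) +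
      cst (2 * B + 2) (2 * n + 1 + 2 - (κ + 1)) (ad (2 * n + 1) (rt (2 * n + 1) (κ + 1) i)) =
        if i = κ ∨ i + 1 = κ then 6 * B + 8 else 6 * B + 6
    unfold cst ad rt
    split_ifs <;> omega
  · show hd (2 * n + 1) (rt (2 * n + 1) (2 * n + 1 + 2 - (κ + 1))
      (ad (2 * n + 1) (rt (2 * n + 1) (κ + 1) i))) (p2 n κ p i) = _
    rw [rt_last hn hκ1 hκ hi]
    rfl

end Pool.Agent.Y790.LE
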