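import Pool.Agent.Y790.LG.Core
import Pool.Agent.Y790.LG.Main
import Pool.Agent.Y790.LG.Cls
import Pool.Agent.Y790.LG.Step

/-!
# Completions of the state of the construction with a prescribed last vertex

This is the library `Pool.Agent.Y790.LG` with one more property of the completion: the last vertex of the free
strand is at the position `W - 1 - e`, where `W` is the number of the new positions and `e` is a fixed integer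
(given by an instance of the class `EE`).
-/

set_option autoImplicit false

namespace Pool.Agent.Y790.LE

open Pool.Agent.Y790.LG (Od Sm Cls rt cst hd Lg Kst prd sk ins Lags ClsStm)

/-- the fixed integer which gives the last vertex of the free strand -/
class EE where
  /-- the distance of the last vertex from the last position -/
  e : ℤ

variable [EE]

/-- the state `x` with `n` pairs of strands has a completion with the prescribed numbers of new vertices: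
the new positions are `0, …, W - 1`, the new sums are the odd numbers from `-(2 n + 1)` to `2 W - 3` -/
def St (n : ℕ) (x : ℕ → ℤ) (ℓ : ℕ → ℕ) (g : ℕ) : Prop :=
  ∃ (W : ℤ) (P : ℕ → List ℤ) (G : List ℤ), W = (∑ m ∈ Finset.range n, (ℓ m : ℤ)) + g ∧
    (∀ m < n, (P m).length = ℓ m) ∧ G.length = g ∧
    (∀ y : ℤ, 0 ≤ y → y < W → y ∈ G ∨ ∃ m < n, y ∈ P m) ∧
    (∀ y ∈ G, 0 ≤ y ∧ y < W) ∧ (∀ m < n, ∀ y ∈ P m, 0 ≤ y ∧ y < W) ∧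
    (∀ v : ℤ, v % 2 = 1 → -(2 * (n : ℤ) + 1) ≤ v → v ≤ 2 * W - 3 →
      Sm (x (2 * n) :: G) v ∨ ∃ m < n, Sm (x (2 * m) :: (P m ++ [x (2 * m + 1)])) v) ∧
    (x (2 * n) :: G).IsChain Od ∧
    (∀ m < n, (x (2 * m) :: (P m ++ [x (2 * m + 1)])).IsChain Od) ∧
    (x (2 * n) :: G).getLast? = some (W - 1 - EE.e)

/-- one state can be brought to the other one, `c i` new vertices being used on the strand `i` -/
def Rc (n : ℕ) (x : ℕ → ℤ) (c : ℕ → ℕ) (y : ℕ → ℤ) : Prop :=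
  ∀ (ℓ : ℕ → ℕ) (g : ℕ), St n y ℓ g →
    St n x (fun m => ℓ m + (c (2 * m) + c (2 * m + 1))) (g + c (2 * n))

/-! ### statements of the parts -/

/-- gluing a segment of length `W₀` in front of a completion -/
def GlueStm : Prop := ∀ (n : ℕ) (x y : ℕ → ℤ) (L : ℕ → List ℤ) (c : ℕ → ℕ) (W₀ : ℤ),
  W₀ = ∑ j ∈ Finset.range (2 * n + 1), (c j : ℤ) →
  (∀ j ≤ 2 * n, (L j).length = c j) →
  (∀ j ≤ 2 * n, (L j).getLast? = some (y j + W₀)) →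
  (∀ j ≤ 2 * n, ∀ u ∈ L j, 0 ≤ u ∧ u < W₀) →
  (∀ j ≤ 2 * n, (x j :: L j).IsChain Od) →
  (∀ u : ℤ, 0 ≤ u → u < W₀ → ∃ j ≤ 2 * n, u ∈ L j) →
  (∀ v : ℤ, v % 2 = 1 → -(2 * (n : ℤ) + 1) ≤ v → v < 2 * W₀ - (2 * n + 1) →
    ∃ j ≤ 2 * n, Sm (x j :: L j) v) →
  Rc n x c y

/-- the same when the heads of the pair number `k` are joined directly -/
def GlueFStm : Prop := ∀ (n k : ℕ) (x y : ℕ → ℤ) (L : ℕ → List ℤ) (c : ℕ → ℕ) (W₀ : ℤ), k ≤ n →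
  W₀ = ∑ j ∈ Finset.range (2 * n + 1), (c j : ℤ) →
  (∀ j ≤ 2 * n, (L j).length = c j) →
  (∀ j ≤ 2 * n, (L j).getLast? = some (y j + W₀)) →
  (∀ j ≤ 2 * n, ∀ u ∈ L j, 0 ≤ u ∧ u < W₀) →
  (∀ j ≤ 2 * n, (x (sk k j) :: L j).IsChain Od) → Od (x (2 * k)) (x (2 * k + 1)) →
  (∀ u : ℤ, 0 ≤ u → u < W₀ → ∃ j ≤ 2 * n, u ∈ L j) →
  (∀ v : ℤ, v % 2 = 1 → -(2 * (n : ℤ) + 3) ≤ v → v < 2 * W₀ - (2 * n + 1) →
    x (2 * k) + x (2 * k + 1) = v ∨ ∃ j ≤ 2 * n, Sm (x (sk k j) :: L j) v) →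
  ∀ (ℓ : ℕ → ℕ) (g : ℕ), St n y ℓ g →
    St (n + 1) x (ins k 0 (fun m => ℓ m + (c (2 * m) + c (2 * m + 1)))) (g + c (2 * n))

/-- elementary step: after the crossing the strand `j` is in the class `a j` and has the lag `p j`, then
`(2 n + 1) w + t` positions are filled -/
def StepStm : Prop := ∀ (n : ℕ) (x : ℕ → ℤ) (a p : ℕ → ℕ) (w t : ℕ), t ≤ 2 * n + 1 →
  (∀ j ≤ 2 * n, a j ≤ 2 * n) → (∀ s ≤ 2 * n, ∃ j ≤ 2 * n, a j = s) →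
  (∀ j ≤ 2 * n, Od (x j) (a j + p j * (2 * n + 1))) →
  (∀ k : ℤ, 0 ≤ k → k ≤ 2 * n →
    ∃ j ≤ 2 * n, x j + (a j + p j * (2 * n + 1)) = 2 * k - (2 * n + 1)) →
  (∀ j ≤ 2 * n, 2 * p j + 2 ≤ cst w t (a j)) →
  (∀ j ≤ 2 * n, cst w t (a j) % 2 = 1 → p j % 2 = 0) →
  Rc n x (fun j => cst w t (a j)) (fun j => hd (2 * n + 1) (rt (2 * n + 1) t (a j)) (p j))

/-- elementary step in which the pair number `k` is joined directly -/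
def StepFStm : Prop := ∀ (n k : ℕ) (x : ℕ → ℤ) (a p : ℕ → ℕ) (w t : ℕ), k ≤ n → t ≤ 2 * n + 1 →
  (∀ j ≤ 2 * n, a j ≤ 2 * n) → (∀ s ≤ 2 * n, ∃ j ≤ 2 * n, a j = s) →
  (∀ j ≤ 2 * n, Od (x (sk k j)) (a j + p j * (2 * n + 1))) → Od (x (2 * k)) (x (2 * k + 1)) →
  (∀ i : ℤ, 0 ≤ i → i ≤ 2 * n + 1 → x (2 * k) + x (2 * k + 1) = 2 * i - (2 * n + 3) ∨
    ∃ j ≤ 2 * n, x (sk k j) + (a j + p j * (2 * n + 1)) = 2 * i - (2 * n + 3)) →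
  (∀ j ≤ 2 * n, 2 * p j + 2 ≤ cst w t (a j)) →
  (∀ j ≤ 2 * n, cst w t (a j) % 2 = 1 → p j % 2 = 0) →
  ∀ (ℓ : ℕ → ℕ) (g : ℕ),
    St n (fun j => hd (2 * n + 1) (rt (2 * n + 1) t (a j)) (p j)) ℓ g →
    St (n + 1) x
      (ins k 0 (fun m => ℓ m + (cst w t (a (2 * m)) + cst w t (a (2 * m + 1)))))
      (g + cst w t (a (2 * n)))

/-- waiting -/
def WaitStm : Prop := ∀ (n : ℕ) (p : ℕ → ℕ) (w : ℕ), (∀ j ≤ 2 * n, 2 * p j + 2 ≤ w) →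
  (∀ j ≤ 2 * n, p j % 2 = 0) → Rc n (Lg n p) (fun _ => w) (Lg n p)

/-- two units of lag are moved to the predecessor -/
def Mov0Stm : Prop := ∀ (n : ℕ) (p : ℕ → ℕ) (κ B : ℕ), 1 ≤ n → κ ≤ 2 * n → 2 ≤ p κ →
  (∀ j ≤ 2 * n, p j % 2 = 0) → (∀ j ≤ 2 * n, p j + 2 ≤ B) →
  Rc n (Lg n p) (fun _ => 6 * B + 7)
    (Lg n (fun i => if i = κ then p i - 2 else if i = prd n κ then p i + 2 else p i))

/-- the same, the two strands using two more vertices -/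
def Mov1Stm : Prop := ∀ (n : ℕ) (p : ℕ → ℕ) (κ B : ℕ), 1 ≤ n → 1 ≤ κ → κ ≤ 2 * n → 2 ≤ p κ →
  (∀ j ≤ 2 * n, p j % 2 = 0) → (∀ j ≤ 2 * n, p j + 2 ≤ B) →
  Rc n (Lg n p) (fun i => if i = κ ∨ i + 1 = κ then 6 * B + 8 else 6 * B + 6)
    (Lg n (fun i => if i = κ then p i - 2 else if i = prd n κ then p i + 2 else p i))

/-- the whole lag is moved to the predecessor -/
def Car0Stm : Prop := ∀ n P κ : ℕ, 1 ≤ n → P % 2 = 0 → κ ≤ 2 * n →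
  Rc n (Kst n P κ) (fun _ => P / 2 * (6 * P + 19)) (Kst n P (prd n κ))

def Car1Stm : Prop := ∀ n P κ : ℕ, 1 ≤ n → P % 2 = 0 → 1 ≤ κ → κ ≤ 2 * n →
  Rc n (Kst n P κ) (fun i => P / 2 * (6 * P + 18) + if i = κ ∨ i + 1 = κ then P else 0)
    (Kst n P (prd n κ))

/-- the lag is moved to an arbitrary strand -/
def AnyStm : Prop := ∀ n P : ℕ, P % 2 = 0 → ∃ N₀ : ℕ, ∀ N ≥ N₀, ∀ κ ≤ 2 * n, ∀ κ' ≤ 2 * n,
  Rc n (Kst n P κ) (fun _ => N) (Kst n P κ')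

/-- the pair number `k` gets `2 P e k` more vertices -/
def SepStm : Prop := ∀ n P B : ℕ, P % 2 = 0 → ∃ N₀ : ℕ, ∀ N ≥ N₀, ∀ e : ℕ → ℕ, (∀ k < n, e k ≤ B) →
  ∀ κ ≤ 2 * n, Rc n (Kst n P κ) (fun i => if i < 2 * n then N + P * e (i / 2) else N) (Kst n P κ)

/-- the pair number `k` is joined -/
def FoldStm : Prop := ∀ n k P P' w w' κ : ℕ, k ≤ n → P % 2 = 0 → P' % 2 = 0 →
  P' * (2 * n + 1) = P * (2 * n + 3) + (2 * n + 2) → 2 * P + 2 ≤ w → 2 * P' + 2 ≤ w' →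
  κ ≤ 2 * n + 2 → rt (2 * n + 3) (2 * k + 2) κ = n →
  ∀ (ℓ : ℕ → ℕ) (g : ℕ), St n (Kst n P' (if κ < 2 * k then κ else κ - 2)) ℓ g →
    St (n + 1) (Kst (n + 1) P κ)
      (ins k (2 * (w + 1)) (fun m => ℓ m + 2 * (w + w' + 1))) (g + (w + w' + 1))

/-- separated lengths -/
def MainStm : Prop := ∀ (n : ℕ) (P : ℕ → ℕ), Lags n P → (P 0 : ℤ) = EE.e → ∃ C : ℕ, ∀ κ ≤ 2 * n, ∀ (ℓ : ℕ → ℕ) (g : ℕ),
  (∀ i < n, ℓ i % 2 = 0) → (∀ i < n, C ≤ ℓ i) →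
  (∀ i < n, ∀ j < n, i ≠ j → ℓ i + C ≤ ℓ j ∨ ℓ j + C ≤ ℓ i) → (∀ i < n, ℓ i + C ≤ 2 * g) → C ≤ g →
  St n (Kst n (P n) κ) ℓ g

/-- arbitrary lengths -/
def TopStm : Prop := ∀ (n : ℕ) (P : ℕ → ℕ), Lags n P → (P 0 : ℤ) = EE.e → 1 ≤ P n →
  ∃ C : ℕ, ∀ κ ≤ 2 * n, ∀ (ℓ : ℕ → ℕ) (g : ℕ),
  (∀ i < n, ℓ i % 2 = 0) → (∀ i < n, C ≤ ℓ i) → (∀ i < n, ℓ i + C ≤ 2 * g) → C ≤ g →
  St n (Kst n (P n) κ) ℓ g

end Pool.Agent.Y790.LE
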