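import Mathlib
import Pool.Agent.Y790.LE.Def

/-!
# Spiders with long legs: separation (job LG-SEP)
-/

set_option autoImplicit false

namespace Pool.Agent.Y790.LE

open Pool.Agent.Y790.LG (Od Sm Cls rt cst hd Lg Kst prd sk ins Lags ClsStm)

variable [EE]

/-- the state depends only on the lengths of the pairs of strands -/
theorem sep_congrL {n : ℕ} {x : ℕ → ℤ} {l l' : ℕ → ℕ} {g : ℕ} (h : ∀ m < n, l m = l' m)
    (hs : St n x l g) : St n x l' g := by
  obtain ⟨W, P, G, hW, hP, h1⟩ := hs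
  refine ⟨W, P, G, ?_, fun m hm => by rw [hP m hm, h m hm], h1⟩
  rw [hW]
  congr 1
  exact Finset.sum_congr rfl fun m hm => by rw [h m (Finset.mem_range.1 hm)]

theorem sep_congrC {n : ℕ} {x y : ℕ → ℤ} {c c' : ℕ → ℕ} (h : ∀ i ≤ 2 * n, c i = c' i)
    (hr : Rc n x c y) : Rc n x c' y := by
  intro l g hs
  have h1 := hr l g hs
  rw [h (2 * n) le_rfl] at h1
  exact sep_congrL (fun m hm => by rw [h (2 * m) (by omega), h (2 * m + 1) (by omega)]) h1

theorem sep_trans {n : ℕ} {x y z : ℕ → ℤ} {c c' : ℕ → ℕ} (h1 : Rc n x c y) (h2 : Rc n y c' z) :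
    Rc n x (fun i => c i + c' i) z := by
  intro l g hs
  have h3 := h1 _ _ (h2 l g hs)
  have e1 : g + c' (2 * n) + c (2 * n) = g + (c (2 * n) + c' (2 * n)) := by omega
  rw [e1] at h3
  exact sep_congrL (fun m _ => by beta_reduce; omega) h3

/-- two units of lag for the pair number `k` -/
theorem sep_flag (h1 : AnyStm) (h2 : Car1Stm) (n P : ℕ) (hP : P % 2 = 0) :
    ∃ N₁ : ℕ, ∀ N ≥ N₁, ∀ κ ≤ 2 * n, ∀ k < n,
      Rc n (Kst n P κ) (fun i => if i = 2 * k ∨ i = 2 * k + 1 then N + P else N) (Kst n P κ) := by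
  obtain ⟨N₀, hN₀⟩ := h1 n P hP
  refine ⟨2 * N₀ + P / 2 * (6 * P + 18), fun N hN κ hκ k hk => ?_⟩
  obtain ⟨b, hb⟩ : ∃ b, N = N₀ + P / 2 * (6 * P + 18) + b ∧ N₀ ≤ b :=
    ⟨N - (N₀ + P / 2 * (6 * P + 18)), by omega, by omega⟩
  have r1 := hN₀ N₀ le_rfl κ hκ (2 * k + 1) (by omega)
  have r2 := h2 n P (2 * k + 1) (by omega) hP (by omega) (by omega)
  have e1 : prd n (2 * k + 1) = 2 * k := by
    unfold prd
    rw [if_neg (by omega)]
    omega
  rw [e1] at r2
  have r3 := hN₀ b hb.2 (2 * k) (by omega) κ hκ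
  refine sep_congrC (fun i _ => ?_) (sep_trans (sep_trans r1 r2) r3)
  by_cases hi : i = 2 * k ∨ i = 2 * k + 1
  · rw [if_pos hi, if_pos (by omega)]
    omega
  · rw [if_neg hi, if_neg (by omega)]
    omega

theorem sep_iter (h1 : AnyStm) {n P N₁ : ℕ} (hP : P % 2 = 0)
    (hf : ∀ N ≥ N₁, ∀ κ ≤ 2 * n, ∀ k < n,
      Rc n (Kst n P κ) (fun i => if i = 2 * k ∨ i = 2 * k + 1 then N + P else N) (Kst n P κ)) :
    ∃ N₂ : ℕ, ∀ (T : ℕ) (e : ℕ → ℕ), ∑ k ∈ Finset.range n, e k = T → ∀ N ≥ (T + 1) * N₂,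
      ∀ κ ≤ 2 * n, Rc n (Kst n P κ) (fun i => if i < 2 * n then N + P * e (i / 2) else N)
        (Kst n P κ) := by
  obtain ⟨N₀, hN₀⟩ := h1 n P hP
  refine ⟨max N₁ N₀, fun T => ?_⟩
  induction T with
  | zero =>
    intro e he N hN κ hκ
    rw [Finset.sum_eq_zero_iff] at he
    refine sep_congrC (fun i _ => ?_) (hN₀ N (by
      have := le_max_right N₁ N₀
      omega) κ hκ κ hκ)
    split_ifs with hi
    · rw [he (i / 2) (Finset.mem_range.2 (by omega)), Nat.mul_zero, Nat.add_zero]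
    · rfl
  | succ T ih =>
    intro e he N hN κ hκ
    obtain ⟨k, hk, hk0⟩ : ∃ k < n, 0 < e k := by
      by_contra hcon
      push Not at hcon
      have h3 : ∑ k ∈ Finset.range n, e k = 0 :=
        Finset.sum_eq_zero fun k hk => Nat.le_zero.1 (hcon k (Finset.mem_range.1 hk))
      omega
    have h3 : ∑ m ∈ Finset.range n, (if m = k then e m - 1 else e m) = T := by
      have h4 : ∑ m ∈ Finset.range n, e m =
          ∑ m ∈ Finset.range n, ((if m = k then e m - 1 else e m) + if m = k then 1 else 0) := by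
        refine Finset.sum_congr rfl fun m _ => ?_
        by_cases hm : m = k
        · rw [if_pos hm, if_pos hm, hm]
          omega
        · rw [if_neg hm, if_neg hm]
          rfl
      rw [Finset.sum_add_distrib, Finset.sum_ite_eq', if_pos (Finset.mem_range.2 hk), he] at h4
      omega
    have hN' : (T + 1 + 1) * max N₁ N₀ ≤ N := hN
    have hmul : (T + 1 + 1) * max N₁ N₀ = (T + 1) * max N₁ N₀ + max N₁ N₀ := Nat.succ_mul _ _
    have r1 := hf (max N₁ N₀) (le_max_left _ _) κ hκ k hk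
    have r2 := ih (fun m => if m = k then e m - 1 else e m) h3 (N - max N₁ N₀) (by omega) κ hκ
    refine sep_congrC (fun i hi => ?_) (sep_trans r1 r2)
    by_cases hi2 : i < 2 * n
    · rw [if_pos hi2, if_pos hi2]
      by_cases hik : i / 2 = k
      · rw [if_pos (by omega), if_pos hik, hik]
        obtain ⟨d, hd⟩ : ∃ d, e k = d + 1 := ⟨e k - 1, by omega⟩
        have h6 : P * (d + 1) = P * d + P := Nat.mul_succ _ _
        rw [hd, Nat.add_sub_cancel, h6]
        omega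
      · rw [if_neg (by omega), if_neg hik]
        omega
    · rw [if_neg (by omega), if_neg hi2, if_neg hi2]
      omega

theorem sep (h1 : AnyStm) (h2 : Car1Stm) (_h3 : WaitStm) : SepStm := by
  intro n P B hP
  obtain ⟨N₁, hN₁⟩ := sep_flag h1 h2 n P hP
  obtain ⟨N₂, hN₂⟩ := sep_iter h1 hP hN₁
  refine ⟨(n * B + 1) * N₂, fun N hN e he κ hκ => ?_⟩
  refine hN₂ _ e rfl N (le_trans (Nat.mul_le_mul_right _ (Nat.add_le_add_right ?_ 1)) hN) κ hκ
  calc ∑ k ∈ Finset.range n, e k ≤ ∑ _k ∈ Finset.range n, B :=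
        Finset.sum_le_sum fun k hk => he k (Finset.mem_range.1 hk)
    _ = n * B := by rw [Finset.sum_const, Finset.card_range, smul_eq_mul]

end Pool.Agent.Y790.LE
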