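import Pool.Agent.Y790.LE.Def

/-!
# Elementary steps
-/

set_option autoImplicit false

namespace Pool.Agent.Y790.LE

open Pool.Agent.Y790.LG (Od Sm Cls rt cst hd Lg Kst prd sk ins Lags ClsStm)

variable [EE]

open Pool.Agent.Y790.LG.StepAux

theorem step (h1 : ClsStm) (h2 : GlueStm) : StepStm := by
  intro n x a p w t ht ha hs hod hcr hw hp
  obtain ⟨L, W₀, hW, hlen, hlast, hb, hch, hcov, hsum, hhd⟩ := core h1 n x a p w t ht ha hs hod hw hp
  refine h2 n x _ L _ W₀ hW hlen hlast hb hch hcov ?_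
  intro v hv hv1 hv2
  by_cases hv3 : 2 * (n : ℤ) + 1 ≤ v
  · exact hsum v hv hv3 hv2
  · obtain ⟨j, hj, hj2⟩ := hcr ((v + (2 * n + 1)) / 2) (by omega) (by omega)
    refine ⟨j, hj, ?_⟩
    have h3 := hhd j hj
    rw [hj2] at h3
    have h4 : 2 * ((v + (2 * (n : ℤ) + 1)) / 2) - (2 * n + 1) = v := by omega
    rw [h4] at h3
    exact h3

theorem stepF (h1 : ClsStm) (h2 : GlueFStm) : StepFStm := by
  intro n k x a p w t hk ht ha hs hod hxk hcr hw hp
  obtain ⟨L, W₀, hW, hlen, hlast, hb, hch, hcov, hsum, hhd⟩ :=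
    core h1 n (fun j => x (sk k j)) a p w t ht ha hs hod hw hp
  refine h2 n k x _ L (fun j => cst w t (a j)) W₀ hk hW hlen hlast hb hch hxk hcov ?_
  intro v hv hv1 hv2
  by_cases hv3 : 2 * (n : ℤ) + 1 ≤ v
  · exact Or.inr (hsum v hv hv3 hv2)
  · have h4 : 2 * ((v + (2 * (n : ℤ) + 3)) / 2) - (2 * n + 3) = v := by omega
    rcases hcr ((v + (2 * n + 3)) / 2) (by omega) (by omega) with hj2 | ⟨j, hj, hj2⟩
    · left
      rw [hj2, h4]
    · right
      refine ⟨j, hj, ?_⟩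
      have h3 := hhd j hj
      rw [hj2, h4] at h3
      exact h3

end Pool.Agent.Y790.LE
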