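import Mathlib
import Pool.Agent.Y790.LE.Def

/-!
# Spiders with long legs: arbitrary lengths (job LG-TOP)
-/

set_option autoImplicit false

namespace Pool.Agent.Y790.LE

open Pool.Agent.Y790.LG (Od Sm Cls rt cst hd Lg Kst prd sk ins Lags ClsStm)

variable [EE]

/-- the state depends only on the lengths of the pairs of strands -/
theorem top_congr {n : ℕ} {x : ℕ → ℤ} {l l' : ℕ → ℕ} {g : ℕ} (h : ∀ m < n, l m = l' m)
    (hs : St n x l g) : St n x l' g := by
  obtain ⟨W, P, G, hW, hP, h1⟩ := hs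
  refine ⟨W, P, G, ?_, fun m hm => by rw [hP m hm, h m hm], h1⟩
  rw [hW]
  congr 1
  exact Finset.sum_congr rfl fun m hm => by rw [h m (Finset.mem_range.1 hm)]

/-- the number of longer pairs -/
def topRk (n : ℕ) (l : ℕ → ℕ) (k : ℕ) : ℕ :=
  ((Finset.range n).filter fun j => l k < l j ∨ (l j = l k ∧ j < k)).card

theorem topRk_le (n : ℕ) (l : ℕ → ℕ) (k : ℕ) : topRk n l k ≤ n := by
  unfold topRk
  refine (Finset.card_filter_le _ _).trans ?_
  rw [Finset.card_range]

theorem topRk_lt {n : ℕ} {l : ℕ → ℕ} {i j : ℕ} (hj : j < n) (h : l i < l j ∨ (l j = l i ∧ j < i)) :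
    topRk n l j + 1 ≤ topRk n l i := by
  unfold topRk
  have h1 : j ∉ (Finset.range n).filter fun m => l j < l m ∨ (l m = l j ∧ m < j) := by
    rw [Finset.mem_filter]
    rintro ⟨_, h2⟩
    omega
  rw [← Finset.card_insert_of_notMem h1]
  apply Finset.card_le_card
  intro m hm
  rw [Finset.mem_insert, Finset.mem_filter] at hm
  rw [Finset.mem_filter]
  rcases hm with rfl | ⟨hm1, hm2⟩
  · exact ⟨Finset.mem_range.2 hj, h⟩
  · exact ⟨hm1, by omega⟩

theorem top (h1 : MainStm) (h2 : SepStm) : TopStm := by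
  intro n P hL hPE hP1
  obtain ⟨C₁, hC₁⟩ := h1 n P hL hPE
  obtain ⟨N, hN⟩ := h2 n (P n) (C₁ * n) (hL.1 n le_rfl)
  refine ⟨C₁ + 2 * N + 2 * (P n * (C₁ * n)), fun κ hκ l g he hl hg2 hg => ?_⟩
  obtain ⟨e, hee⟩ : ∃ e : ℕ → ℕ, e = fun k => C₁ * topRk n l k := ⟨_, rfl⟩
  have hek : ∀ k, e k ≤ C₁ * n := fun k => by
    rw [hee]
    exact Nat.mul_le_mul_left _ (topRk_le n l k)
  have hPe : ∀ k, P n * e k ≤ P n * (C₁ * n) := fun k => Nat.mul_le_mul_left _ (hek k)
  have hr := hN N le_rfl e (fun k _ => hek k) κ hκ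
  have hst : St n (Kst n (P n) κ) (fun m => l m - (2 * N + 2 * (P n * e m))) (g - N) := by
    refine hC₁ κ hκ _ _ ?_ ?_ ?_ ?_ ?_
    · intro i hi
      have a1 := he i hi
      have a2 := hl i hi
      have a3 := hPe i
      show (l i - (2 * N + 2 * (P n * e i))) % 2 = 0
      omega
    · intro i hi
      have a2 := hl i hi
      have a3 := hPe i
      show C₁ ≤ l i - (2 * N + 2 * (P n * e i))
      omega
    · have key : ∀ i < n, ∀ j < n, (l i < l j ∨ (l j = l i ∧ j < i)) →
          l i - (2 * N + 2 * (P n * e i)) + C₁ ≤ l j - (2 * N + 2 * (P n * e j)) := by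
        intro i hi j hj hij
        have a1 := topRk_lt hj hij
        have a2 : e j + C₁ ≤ e i := by
          rw [hee]
          show C₁ * topRk n l j + C₁ ≤ C₁ * topRk n l i
          rw [← Nat.mul_succ]
          exact Nat.mul_le_mul_left _ a1
        have a3 : P n * e j + P n * C₁ ≤ P n * e i := by
          rw [← Nat.mul_add]
          exact Nat.mul_le_mul_left _ a2
        have a4 : C₁ ≤ P n * C₁ := Nat.le_mul_of_pos_left _ hP1
        have a5 := hl i hi
        have a6 := hPe i
        omega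
      intro i hi j hj hij
      rcases Nat.lt_trichotomy (l i) (l j) with h | h | h
      · exact Or.inl (key i hi j hj (Or.inl h))
      · rcases Nat.lt_or_ge i j with h' | h'
        · exact Or.inr (key j hj i hi (Or.inr ⟨h, h'⟩))
        · exact Or.inl (key i hi j hj (Or.inr ⟨h.symm, by omega⟩))
      · exact Or.inr (key j hj i hi (Or.inl h))
    · intro i hi
      have a1 := hg2 i hi
      have a2 := hl i hi
      have a3 := hPe i
      show l i - (2 * N + 2 * (P n * e i)) + C₁ ≤ 2 * (g - N)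
      omega
    · omega
  have h3 := hr _ _ hst
  have e1 : g - N + (if 2 * n < 2 * n then N + P n * e (2 * n / 2) else N) = g := by
    rw [if_neg (lt_irrefl _)]
    omega
  rw [e1] at h3
  refine top_congr (fun m hm => ?_) h3
  have e2 : 2 * m / 2 = m := by omega
  have e3 : (2 * m + 1) / 2 = m := by omega
  have a2 := hl m hm
  have a3 := hPe m
  beta_reduce
  rw [if_pos (by omega), if_pos (by omega), e2, e3]
  omega

end Pool.Agent.Y790.LE
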