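import Pool.Agent.Y790.LE.Glue
import Pool.Agent.Y790.LE.GlueF
import Pool.Agent.Y790.LE.Step
import Pool.Agent.Y790.LE.Mov
import Pool.Agent.Y790.LE.Car
import Pool.Agent.Y790.LE.Sep
import Pool.Agent.Y790.LE.Fold
import Pool.Agent.Y790.LE.Main
import Pool.Agent.Y790.LE.Top

/-!
# Completions with a prescribed last vertex: all parts
-/

set_option autoImplicit false

namespace Pool.Agent.Y790.LE

variable [EE]

/-- long threads can be completed so that the free strand ends at the position `W - 1 - e` -/
theorem allTop : TopStm := by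
  have h1 : StepStm := step Pool.Agent.Y790.LG.cls glue
  have h2 : StepFStm := stepF Pool.Agent.Y790.LG.cls glueF
  have h3 := wait h1
  have h4 := any h3 (car0 (mov0 h1))
  exact top (main h3 h4 (fold h1 h2)) (sep h4 (car1 (mov1 h1)) h3)

end Pool.Agent.Y790.LE
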