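import Pool.Agent.Y790.LE.Def

/-!
# Gluing segments in front of a completion: the common part
-/

set_option autoImplicit false

namespace Pool.Agent.Y790.LE

open Pool.Agent.Y790.LG (Od Sm Cls rt cst hd Lg Kst prd sk ins Lags ClsStm Zl Zl_length mem_Zl exists_last
  pair_chain pair_left pair_right pair_mid one_chain one_left one_mid sum_pairs)

variable [EE]

/-- the common part of the two ways of gluing -/
theorem core (n : ℕ) (x y : ℕ → ℤ) (L : ℕ → List ℤ) (c : ℕ → ℕ) (W₀ : ℤ)
    (hW₀ : W₀ = ∑ j ∈ Finset.range (2 * n + 1), (c j : ℤ))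
    (hlen : ∀ j ≤ 2 * n, (L j).length = c j)
    (hlast : ∀ j ≤ 2 * n, (L j).getLast? = some (y j + W₀))
    (hbd : ∀ j ≤ 2 * n, ∀ u ∈ L j, 0 ≤ u ∧ u < W₀)
    (hch : ∀ j ≤ 2 * n, (x j :: L j).IsChain Od)
    (hcov : ∀ u : ℤ, 0 ≤ u → u < W₀ → ∃ j ≤ 2 * n, u ∈ L j)
    (ℓ : ℕ → ℕ) (g : ℕ) (hS : St n y ℓ g) :
    ∃ (W : ℤ) (P : ℕ → List ℤ) (G : List ℤ),
      W = (∑ m ∈ Finset.range n, ((ℓ m + (c (2 * m) + c (2 * m + 1)) : ℕ) : ℤ)) +
        ((g + c (2 * n) : ℕ) : ℤ) ∧
      (∀ m < n, (P m).length = ℓ m + (c (2 * m) + c (2 * m + 1))) ∧ G.length = g + c (2 * n) ∧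
      (∀ y : ℤ, 0 ≤ y → y < W → y ∈ G ∨ ∃ m < n, y ∈ P m) ∧
      (∀ y ∈ G, 0 ≤ y ∧ y < W) ∧ (∀ m < n, ∀ y ∈ P m, 0 ≤ y ∧ y < W) ∧
      (∀ v : ℤ, v % 2 = 1 → 2 * W₀ - (2 * (n : ℤ) + 1) ≤ v → v ≤ 2 * W - 3 →
        Sm (x (2 * n) :: G) v ∨ ∃ m < n, Sm (x (2 * m) :: (P m ++ [x (2 * m + 1)])) v) ∧
      (∀ j ≤ 2 * n, ∀ v : ℤ, Sm (x j :: L j) v →
        Sm (x (2 * n) :: G) v ∨ ∃ m < n, Sm (x (2 * m) :: (P m ++ [x (2 * m + 1)])) v) ∧
      (x (2 * n) :: G).IsChain Od ∧
      (∀ m < n, (x (2 * m) :: (P m ++ [x (2 * m + 1)])).IsChain Od) ∧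
      (x (2 * n) :: G).getLast? = some (W - 1 - EE.e) := by
  obtain ⟨W', P', G', hW', hP', hG', hc', hbG', hbP', hs', hcG', hcP', hlast'⟩ := hS
  have hW0 : 0 ≤ W₀ := by
    rw [hW₀]
    exact Finset.sum_nonneg fun j _ => by positivity
  have hWp : 0 ≤ W' := by
    rw [hW']
    have : (0 : ℤ) ≤ ∑ m ∈ Finset.range n, (ℓ m : ℤ) := Finset.sum_nonneg fun j _ => by positivity
    omega
  refine ⟨W₀ + W', fun m => Zl (L (2 * m)) (P' m) (L (2 * m + 1)) W₀,
    L (2 * n) ++ G'.map (· + W₀), ?_, ?_, ?_, ?_, ?_, ?_, ?_, ?_, ?_, ?_, ?_⟩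
  · rw [hW₀, hW', sum_pairs]
    push_cast
    simp only [Finset.sum_add_distrib]
    ring
  · intro m hm
    rw [Zl_length, hP' m hm, hlen _ (by omega), hlen _ (by omega)]
  · rw [List.length_append, List.length_map, hG', hlen _ le_rfl, add_comm]
  · intro u h0 h1
    by_cases hu : u < W₀
    · obtain ⟨j, hj, hju⟩ := hcov u h0 hu
      by_cases hj2 : j = 2 * n
      · left
        rw [List.mem_append]
        left
        rwa [← hj2]
      · right
        refine ⟨j / 2, by omega, mem_Zl.2 ?_⟩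
        rcases Nat.mod_two_eq_zero_or_one j with h | h
        · left
          rwa [show 2 * (j / 2) = j by omega]
        · right; right
          rwa [show 2 * (j / 2) + 1 = j by omega]
    · rcases hc' (u - W₀) (by omega) (by omega) with h | ⟨m, hm, h⟩
      · left
        rw [List.mem_append, List.mem_map]
        exact Or.inr ⟨_, h, by ring⟩
      · right
        exact ⟨m, hm, mem_Zl.2 (Or.inr (Or.inl h))⟩
  · intro u hu
    rw [List.mem_append, List.mem_map] at hu
    rcases hu with h | ⟨a, h, rfl⟩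
    · have := hbd _ le_rfl u h
      omega
    · have := hbG' a h
      omega
  · intro m hm u hu
    rw [mem_Zl] at hu
    rcases hu with h | h | h
    · have := hbd (2 * m) (by omega) u h
      omega
    · have := hbP' m hm _ h
      omega
    · have := hbd (2 * m + 1) (by omega) u h
      omega
  · intro v hv h1 h2
    rcases hs' (v - 2 * W₀) (by omega) (by omega) (by omega) with h | ⟨m, hm, h⟩
    · left
      exact h.shift.inFx (one_mid (hlast _ le_rfl))
    · right
      exact ⟨m, hm, h.shift.inFx (pair_mid (hlast _ (by omega)) (hlast _ (by omega)))⟩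
  · intro j hj v h
    by_cases hj2 : j = 2 * n
    · left
      subst hj2
      exact h.inFx one_left
    · right
      refine ⟨j / 2, by omega, ?_⟩
      rcases Nat.mod_two_eq_zero_or_one j with h3 | h3
      · obtain ⟨m, rfl⟩ : ∃ m, j = 2 * m := ⟨j / 2, by omega⟩
        rw [show 2 * m / 2 = m by omega]
        exact h.inFx pair_left
      · obtain ⟨m, rfl⟩ : ∃ m, j = 2 * m + 1 := ⟨j / 2, by omega⟩
        rw [show (2 * m + 1) / 2 = m by omega]
        exact h.reverse.inFx pair_right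
  · exact one_chain (hlast _ le_rfl) (hch _ le_rfl) hcG'
  · intro m hm
    exact pair_chain (hlast _ (by omega)) (hlast _ (by omega)) (hch _ (by omega))
      (hch _ (by omega)) (hcP' m hm)
  · obtain ⟨A', hA'⟩ := exists_last (hlast (2 * n) le_rfl)
    rw [hA']
    rcases List.eq_nil_or_concat G' with h | ⟨G'', z, h⟩
    · subst h
      simp only [List.getLast?_singleton, Option.some.injEq] at hlast'
      rw [hlast', List.map_nil, List.append_nil, ← List.cons_append, List.getLast?_concat]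
      congr 1
      ring
    · rw [List.concat_eq_append] at h
      subst h
      rw [← List.cons_append, List.getLast?_concat, Option.some.injEq] at hlast'
      rw [hlast', List.map_append, ← List.append_assoc, ← List.cons_append]
      simp only [List.map_cons, List.map_nil]
      rw [List.getLast?_concat]
      congr 1
      ring

end Pool.Agent.Y790.LE
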