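import Pool.Agent.Y790.LE.Core

/-!
# LG-GLUE: gluing a segment in front of a completion
-/

set_option autoImplicit false

namespace Pool.Agent.Y790.LE

open Pool.Agent.Y790.LG (Od Sm Cls rt cst hd Lg Kst prd sk ins Lags ClsStm)

variable [EE]

theorem glue : GlueStm := by
  intro n x y L c W₀ hW₀ hlen hlast hbd hch hcov hsum ℓ g hS
  obtain ⟨W, P, G, hW, hP, hG, h1, h2, h3, h4, h5, h6, h7, h8⟩ :=
    core n x y L c W₀ hW₀ hlen hlast hbd hch hcov ℓ g hS
  refine ⟨W, P, G, hW, hP, hG, h1, h2, h3, ?_, h6, h7, h8⟩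
  intro v hv ha hb
  by_cases hc : v < 2 * W₀ - (2 * n + 1)
  · obtain ⟨j, hj, h⟩ := hsum v hv ha hc
    exact h5 j hj v h
  · exact h4 v hv (not_lt.1 hc) hb

end Pool.Agent.Y790.LE
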